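import Pool.Agent.Work.MP_e99d20_al.UpperLow
import Pool.Agent.Work.MP_e99d20_al.Lower4

set_option autoImplicit false

/-!
# The palindromic width of the free nilpotent groups

For all `n ≥ 3` and `r ≥ 2` the palindromic width of the free `r`-step nilpotent group
`N_{n,r}` of rank `n`, with respect to the images of the free generators, equals `2n - 1` when
`r = 2, 3` and `2n + 1` when `r ≥ 4`.
-/

namespace Pool.Agent.Results.MP_e99d20_al.PalindromicWidth

open Pool.Agent.Work.MP_e99d20_al

/-- The element `g` of the group `G`, generated by the family `x`, is a palindrome: it is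
represented by a reduced word in the letters `x_i^{±1}` which equals its own reversal. A letter
`(i, true)` stands for `x_i` and `(i, false)` for its inverse. -/
def IsPalindrome {ι G : Type} [DecidableEq ι] [Group G] (x : ι → G) (g : G) : Prop :=
  ∃ w : FreeGroup ι, w.toWord.reverse = w.toWord ∧ FreeGroup.lift x w = g

/-- The palindromic length of `g`: the least length of a list of palindromes with product `g`
(`⊤` if there is none). -/
noncomputable def palLength {ι G : Type} [DecidableEq ι] [Group G] (x : ι → G) (g : G) : ℕ∞ :=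
  sInf {k : ℕ∞ | ∃ l : List G, (∀ p ∈ l, IsPalindrome x p) ∧ l.prod = g ∧ k = (l.length : ℕ∞)}

/-- The palindromic width: the supremum of the palindromic lengths. -/
noncomputable def palWidth {ι G : Type} [DecidableEq ι] [Group G] (x : ι → G) : ℕ∞ :=
  ⨆ g : G, palLength x g

/-- The free `r`-step nilpotent group of rank `n`, that is, the quotient of the free group `F_n`
by `γ_{r+1}(F_n)`; Mathlib numbers the lower central series from zero. -/
abbrev FreeNilpotent (n r : ℕ) : Type :=
  FreeGroup (Fin n) ⧸ (⊤ : Subgroup (FreeGroup (Fin n))).lowerCentralSeries r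

/-- The images of the free generators. -/
def gens (n r : ℕ) (i : Fin n) : FreeNilpotent n r := QuotientGroup.mk (FreeGroup.of i)

lemma lift_gens {n r : ℕ} (w : FreeGroup (Fin n)) :
    FreeGroup.lift (gens n r) w = (QuotientGroup.mk w : FreeNilpotent n r) := by
  have h : FreeGroup.lift (gens n r) =
      QuotientGroup.mk' ((⊤ : Subgroup (FreeGroup (Fin n))).lowerCentralSeries r) := by
    ext i
    simp [gens]
  rw [h]
  rfl

lemma pal_isPalindrome {n r : ℕ} {w : FreeGroup (Fin n)} (h : Pal w) :
    IsPalindrome (gens n r) (QuotientGroup.mk w : FreeNilpotent n r) :=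
  ⟨w, (pal_iff w).mp h, lift_gens w⟩

lemma mk_list_prod {n r : ℕ} (l : List (FreeGroup (Fin n))) :
    ((l.map (fun p => (QuotientGroup.mk p : FreeNilpotent n r))).prod) =
      (QuotientGroup.mk l.prod : FreeNilpotent n r) := by
  have h := map_list_prod
    (QuotientGroup.mk' ((⊤ : Subgroup (FreeGroup (Fin n))).lowerCentralSeries r)) l
  exact h.symm

lemma length_le {n r k : ℕ} {g : FreeGroup (Fin n)}
    (h : ∃ l : List (FreeGroup (Fin n)), l.length = k ∧ (∀ p ∈ l, Pal p) ∧
      (QuotientGroup.mk l.prod : FreeNilpotent n r) = QuotientGroup.mk g) :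
    palLength (gens n r) (QuotientGroup.mk g : FreeNilpotent n r) ≤ k := by
  obtain ⟨l, h1, h2, h3⟩ := h
  apply sInf_le
  refine ⟨l.map (fun p => (QuotientGroup.mk p : FreeNilpotent n r)), ?_, ?_, ?_⟩
  · intro p hp
    obtain ⟨q, hq, rfl⟩ := List.mem_map.mp hp
    exact pal_isPalindrome (h2 q hq)
  · rw [mk_list_prod, h3]
  · rw [List.length_map, h1]

lemma lift_list {n r : ℕ} (l : List (FreeNilpotent n r))
    (hl : ∀ p ∈ l, IsPalindrome (gens n r) p) :
    ∃ l' : List (FreeGroup (Fin n)), l'.length = l.length ∧ (∀ p ∈ l', Pal p) ∧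
      (QuotientGroup.mk l'.prod : FreeNilpotent n r) = l.prod := by
  induction l with
  | nil => exact ⟨[], rfl, by simp, rfl⟩
  | cons p l ih =>
    obtain ⟨l', h1, h2, h3⟩ := ih (fun q hq => hl q (List.mem_cons_of_mem _ hq))
    obtain ⟨w, hw, hw'⟩ := hl p List.mem_cons_self
    refine ⟨w :: l', by simp [h1], ?_, ?_⟩
    · intro q hq
      rcases List.mem_cons.mp hq with rfl | hq
      · exact (pal_iff q).mpr hw
      · exact h2 q hq
    · rw [List.prod_cons, QuotientGroup.mk_mul, h3, List.prod_cons, ← hw', lift_gens]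

lemma le_length {n r k : ℕ} {g : FreeGroup (Fin n)}
    (h : ∀ l : List (FreeGroup (Fin n)), l.length = k → (∀ p ∈ l, Pal p) →
      (QuotientGroup.mk l.prod : FreeNilpotent n r) = QuotientGroup.mk g → False) :
    ((k + 1 : ℕ) : ℕ∞) ≤ palLength (gens n r) (QuotientGroup.mk g : FreeNilpotent n r) := by
  apply le_sInf
  rintro _ ⟨l, h1, h2, rfl⟩
  rw [Nat.cast_le]
  by_contra hlt
  obtain ⟨l', h3, h4, h5⟩ := lift_list l h1
  refine h (l' ++ List.replicate (k - l.length) 1) ?_ ?_ ?_
  · rw [List.length_append, List.length_replicate, h3]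
    omega
  · intro p hp
    rcases List.mem_append.mp hp with hp | hp
    · exact h4 p hp
    · rw [List.eq_of_mem_replicate hp]
      exact Pal.one
  · rw [List.prod_append, List.prod_replicate, one_pow, mul_one, h5, h2]

/-- **Palindromic width of free nilpotent groups.** For `n ≥ 3` and `r ≥ 2`,
`pw(N_{n,r}) = 2n - 1` if `r ≤ 3` and `pw(N_{n,r}) = 2n + 1` if `r ≥ 4`. -/
theorem result (n r : ℕ) (hn : 3 ≤ n) (hr : 2 ≤ r) :
    palWidth (gens n r) = if r ≤ 3 then ((2 * n - 1 : ℕ) : ℕ∞) else ((2 * n + 1 : ℕ) : ℕ∞) := by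
  split_ifs with h3
  · apply le_antisymm
    · apply iSup_le
      intro g
      obtain ⟨g', rfl⟩ := QuotientGroup.mk_surjective g
      apply length_le
      obtain ⟨l, h1, h2, e⟩ := upper_low (ι := Fin n) (by rw [Fintype.card_fin]; omega) g'
      refine ⟨l, by rw [h1, Fintype.card_fin], h2, ?_⟩
      exact QuotientGroup.eq.mpr (gam_anti h3 (QuotientGroup.eq.mp e))
    · refine le_trans ?_ (le_iSup (palLength (gens n r)) (QuotientGroup.mk (g2 n)))
      have hk : 2 * n - 1 = 2 * (n - 1) + 1 := by omega
      rw [hk]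
      apply le_length
      intro l h1 h2 e
      exact lower_two (by omega) l h1 h2
        (QuotientGroup.eq.mpr (gam_anti hr (QuotientGroup.eq.mp e)))
  · apply le_antisymm
    · apply iSup_le
      intro g
      obtain ⟨g', rfl⟩ := QuotientGroup.mk_surjective g
      apply length_le
      obtain ⟨l, h1, h2, e⟩ := upper_all g' r
      exact ⟨l, by rw [h1, Fintype.card_fin], h2, e⟩
    · refine le_trans ?_ (le_iSup (palLength (gens n r)) (QuotientGroup.mk (g4 n)))
      apply le_length
      intro l h1 h2 e
      exact lower_four hn l h1 h2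
        (QuotientGroup.eq.mpr (gam_anti (by omega) (QuotientGroup.eq.mp e)))

end Pool.Agent.Results.MP_e99d20_al.PalindromicWidth
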